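import Pool.Agent.Helper85.QT.St3

/-!
# Project QT, module LKF
-/

set_option autoImplicit false

open MeasureTheory Matrix Set Topology
open scoped ENNReal ComplexConjugate

namespace Pool.Agent.Helper19.QT

open Pool.Agent.Helper86.QA Pool.Agent.Helper85.QT

private theorem exp_sq (u : ℝ) : Real.exp u * u ^ 2 ≤ (Real.exp u - 1) ^ 2 := by
  have h1 : (u / 2) ^ 2 ≤ Real.sinh (u / 2) ^ 2 := by
    rcases le_total 0 (u / 2) with h | h
    · have h2 := Real.self_le_sinh_iff.2 h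
      nlinarith
    · have h2 := Real.sinh_le_self_iff.2 h
      nlinarith
  have h3 : Real.exp u = Real.exp (u / 2) * Real.exp (u / 2) := by
    rw [← Real.exp_add]
    ring_nf
  have h4 : Real.exp (u / 2) * Real.exp (-(u / 2)) = 1 := by
    rw [← Real.exp_add]
    simp
  have h5 : (Real.exp u - 1) = 2 * (Real.exp (u / 2) * Real.sinh (u / 2)) := by
    rw [Real.sinh_eq, h3]
    linear_combination h4
  rw [h5]
  have h6 : Real.exp u * u ^ 2 = 4 * Real.exp u * (u / 2) ^ 2 := by ring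
  rw [h6]
  have h7 := Real.exp_pos u
  have h8 : (2 * (Real.exp (u / 2) * Real.sinh (u / 2))) ^ 2 =
      4 * Real.exp u * Real.sinh (u / 2) ^ 2 := by
    rw [h3]
    ring
  rw [h8]
  exact mul_le_mul_of_nonneg_left h1 (by positivity)

private theorem key (X : ℂ) (hX : |X.im| ≤ Real.pi) :
    ‖Complex.exp X + 1‖ ^ 2 * min 1 (‖X‖ ^ 2) ≤ 10 * ‖Complex.exp X - 1‖ ^ 2 := by
  set u := X.re with hu
  set v := X.im with hv
  set e := Real.exp u with he
  have he0 : 0 < e := Real.exp_pos u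
  have hre : (Complex.exp X).re = e * Real.cos v := Complex.exp_re X
  have him : (Complex.exp X).im = e * Real.sin v := Complex.exp_im X
  have hcs := Real.sin_sq_add_cos_sq v
  have h1 : ‖Complex.exp X + 1‖ ^ 2 = e ^ 2 + 2 * e * Real.cos v + 1 := by
    rw [Complex.sq_norm, Complex.normSq_apply, Complex.add_re, Complex.add_im, hre, him,
      Complex.one_re, Complex.one_im]
    linear_combination e ^ 2 * hcs
  have h2 : ‖Complex.exp X - 1‖ ^ 2 = e ^ 2 - 2 * e * Real.cos v + 1 := by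
    rw [Complex.sq_norm, Complex.normSq_apply, Complex.sub_re, Complex.sub_im, hre, him,
      Complex.one_re, Complex.one_im]
    linear_combination e ^ 2 * hcs
  have h3 : ‖X‖ ^ 2 = u ^ 2 + v ^ 2 := by
    rw [Complex.sq_norm, Complex.normSq_apply]
    ring
  have hcos1 := Real.cos_le_one v
  have hcos2 := Real.neg_one_le_cos v
  have hq := Real.cos_le_one_sub_mul_cos_sq hX
  have hexp := exp_sq u
  rw [← he] at hexp
  rw [h1, h2, h3]
  set μ := min 1 (u ^ 2 + v ^ 2) with hμ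
  have hμ1 : μ ≤ 1 := min_le_left _ _
  have hμ2 : μ ≤ u ^ 2 + v ^ 2 := min_le_right _ _
  have hμ0 : 0 ≤ μ := le_min zero_le_one (by positivity)
  have hpi : Real.pi ^ 2 ≤ 10 := by
    have := Real.pi_lt_d2
    have := Real.pi_pos
    nlinarith
  have hpi0 : 0 < Real.pi ^ 2 := by positivity
  have hv2 : v ^ 2 ≤ Real.pi ^ 2 / 2 * (1 - Real.cos v) := by
    have h5 : 2 / Real.pi ^ 2 * v ^ 2 ≤ 1 - Real.cos v := by linarith
    have h6 := mul_le_mul_of_nonneg_left h5 (show 0 ≤ Real.pi ^ 2 / 2 by positivity)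
    have h7 : Real.pi ^ 2 / 2 * (2 / Real.pi ^ 2 * v ^ 2) = v ^ 2 := by field_simp
    linarith
  have hv3 : v ^ 2 ≤ 5 * (1 - Real.cos v) := by
    have : Real.pi ^ 2 / 2 * (1 - Real.cos v) ≤ 5 * (1 - Real.cos v) :=
      mul_le_mul_of_nonneg_right (by linarith) (by linarith)
    linarith
  have hA : (e ^ 2 + 2 * e * Real.cos v + 1) * μ ≤ (e - 1) ^ 2 + 4 * e * μ := by
    have h5 : (e ^ 2 + 2 * e * Real.cos v + 1) ≤ (e - 1) ^ 2 + 4 * e := by nlinarith
    have h6 := mul_le_mul_of_nonneg_right h5 hμ0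
    have h7 : (e - 1) ^ 2 * μ ≤ (e - 1) ^ 2 := mul_le_of_le_one_right (sq_nonneg _) hμ1
    nlinarith
  have hB : 4 * e * μ ≤ 4 * (e - 1) ^ 2 + 20 * e * (1 - Real.cos v) := by
    have h5 : e * μ ≤ e * (u ^ 2 + v ^ 2) := mul_le_mul_of_nonneg_left hμ2 he0.le
    have h6 : e * v ^ 2 ≤ e * (5 * (1 - Real.cos v)) := mul_le_mul_of_nonneg_left hv3 he0.le
    nlinarith
  nlinarith [sq_nonneg (e - 1)]

theorem hLKF : StLKF := by
  intro c hc
  refine ⟨28 * Real.pi + 48 * Real.pi ^ 2 + 12 * Real.pi / c + 24 * Real.pi, by positivity, ?_⟩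
  intro lam a b δ m hlam hm hmT ha hb hab hexp hδ
  set T := 2 * Real.pi * lam.re / ‖lam‖ ^ 2 with hT
  have hpi := Real.pi_pos
  have hl0 : lam ≠ 0 := by
    rintro rfl
    simp at hlam
  have hln : 0 < ‖lam‖ := norm_pos_iff.2 hl0
  have hq0 : a / b ≠ 0 := div_ne_zero ha hb
  have hq1 : a / b ≠ 1 := fun h => hab ((div_eq_one_iff_eq hb).1 h)
  set X := Complex.log (a / b) with hX
  have hXe : Complex.exp X = a / b := Complex.exp_log hq0
  have hXi : |X.im| ≤ Real.pi := abs_le.2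
    ⟨(Complex.neg_pi_lt_log_im _).le, Complex.log_im_le_pi _⟩
  have hX0 : X ≠ 0 := by
    intro h
    rw [h, Complex.exp_zero] at hXe
    exact hq1 hXe.symm
  have hXn : 0 < ‖X‖ := norm_pos_iff.2 hX0
  obtain ⟨k, hk⟩ := Complex.exp_eq_exp_iff_exists_int.1 (hexp.trans hXe.symm)
  -- m |lam| ≤ 2 π
  have hml : m * ‖lam‖ ≤ 2 * Real.pi := by
    have h1 : m * ‖lam‖ ≤ T * ‖lam‖ := mul_le_mul_of_nonneg_right hmT hln.le
    have h2 : T * ‖lam‖ = 2 * Real.pi * (lam.re / ‖lam‖) := by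
      rw [hT]
      field_simp
    have h3 : lam.re / ‖lam‖ ≤ 1 := (div_le_one hln).2 (Complex.re_le_norm lam)
    nlinarith
  have hml0 : 0 ≤ m * ‖lam‖ := by positivity
  -- the quotient
  set w := (a + b) / (a - b) with hw
  have hab' : a - b ≠ 0 := sub_ne_zero.2 hab
  have hwq : w * (Complex.exp X - 1) = Complex.exp X + 1 := by
    rw [hXe, hw]
    field_simp
  have hE1 : Complex.exp X - 1 ≠ 0 := by
    rw [hXe]
    exact sub_ne_zero.2 hq1
  have hwb : ‖w‖ * min 1 ‖X‖ ≤ 4 := by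
    have h1 := key X hXi
    have h2 : ‖Complex.exp X + 1‖ = ‖w‖ * ‖Complex.exp X - 1‖ := by rw [← hwq, norm_mul]
    rw [h2] at h1
    have h3 : 0 < ‖Complex.exp X - 1‖ := norm_pos_iff.2 hE1
    have h4 : ‖w‖ ^ 2 * min 1 (‖X‖ ^ 2) ≤ 10 := by
      have h5 : (‖w‖ ^ 2 * min 1 (‖X‖ ^ 2)) * ‖Complex.exp X - 1‖ ^ 2 ≤
          10 * ‖Complex.exp X - 1‖ ^ 2 := by
        calc _ = (‖w‖ * ‖Complex.exp X - 1‖) ^ 2 * min 1 (‖X‖ ^ 2) := by ring
          _ ≤ _ := h1
      exact le_of_mul_le_mul_right h5 (by positivity)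
    have h6 : (min 1 ‖X‖) ^ 2 ≤ min 1 (‖X‖ ^ 2) := by
      refine le_min ?_ ?_
      · have : min 1 ‖X‖ ≤ 1 := min_le_left _ _
        have h0 : 0 ≤ min 1 ‖X‖ := le_min zero_le_one hXn.le
        nlinarith
      · have : min 1 ‖X‖ ≤ ‖X‖ := min_le_right _ _
        have h0 : 0 ≤ min 1 ‖X‖ := le_min zero_le_one hXn.le
        exact pow_le_pow_left₀ h0 this 2
    have h7 : (‖w‖ * min 1 ‖X‖) ^ 2 ≤ 16 := by
      have h8 := mul_le_mul_of_nonneg_left h6 (sq_nonneg ‖w‖)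
      nlinarith
    have h9 : 0 ≤ ‖w‖ * min 1 ‖X‖ := by positivity
    nlinarith
  have hwb2 : ‖w‖ ≤ 4 * (1 + 1 / ‖X‖) := by
    rcases le_total 1 ‖X‖ with h | h
    · rw [min_eq_left h, mul_one] at hwb
      have : 0 < 1 / ‖X‖ := by positivity
      linarith
    · rw [min_eq_right h] at hwb
      have h1 : ‖w‖ ≤ 4 / ‖X‖ := (le_div_iff₀ hXn).2 hwb
      have h2 : 4 / ‖X‖ = 4 * (1 / ‖X‖) := by ring
      linarith
  have hwX : ‖w‖ * ‖X‖ ≤ 4 * (‖X‖ + 1) := by
    have h1 := mul_le_mul_of_nonneg_right hwb2 hXn.le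
    have h2 : 4 * (1 + 1 / ‖X‖) * ‖X‖ = 4 * (‖X‖ + 1) := by field_simp
    linarith
  -- bound of X
  have hXL : ‖X‖ ≤ |Real.log (‖a‖ / ‖b‖)| + Real.pi := by
    have h1 := Complex.norm_le_abs_re_add_abs_im X
    have h2 : X.re = Real.log (‖a‖ / ‖b‖) := by
      rw [hX, Complex.log_re, norm_div]
    rw [h2] at h1
    linarith
  set L := |Real.log (‖a‖ / ‖b‖)| with hL
  have hL0 : 0 ≤ L := abs_nonneg _
  -- the part with k
  have hkpart : m * ‖lam‖ * (|(k : ℝ)| * (1 + 1 / ‖X‖)) ≤ 2 * Real.pi + ‖X‖ + 1 / c + 1 := by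
    rcases eq_or_ne k 0 with h0 | h0
    · rw [h0]
      simp only [Int.cast_zero, abs_zero, zero_mul, mul_zero]
      positivity
    · have hk1 : (1 : ℝ) ≤ |(k : ℝ)| := by
        have h1 := Int.one_le_abs h0
        have h2 : ((1 : ℤ) : ℝ) ≤ ((|k| : ℤ) : ℝ) := Int.cast_le.2 h1
        rw [Int.cast_one, Int.cast_abs] at h2
        exact h2
      set n := |(k : ℝ)| with hn
      -- imaginary part
      have hδe : δ = X / lam + (k : ℂ) * (2 * (Real.pi : ℂ) * Complex.I / lam) := by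
        have h1 : lam * δ = X + (k : ℂ) * (2 * (Real.pi : ℂ) * Complex.I) := by
          rw [hk]
        field_simp
        rw [mul_comm δ lam, h1]
        ring
      have him : ((k : ℂ) * (2 * (Real.pi : ℂ) * Complex.I / lam)).im = (k : ℝ) * T := by
        have h1 : (2 * (Real.pi : ℂ) * Complex.I / lam) =
            ((2 * Real.pi : ℝ) : ℂ) * (Complex.I / lam) := by
          push_cast
          ring
        rw [h1]
        have h2 : (Complex.I / lam).im = lam.re / ‖lam‖ ^ 2 := by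
          rw [Complex.div_im, Complex.sq_norm]
          simp
        have h3 : ((k : ℂ)) = (((k : ℝ)) : ℂ) := by push_cast; rfl
        rw [h3, ← mul_assoc, ← Complex.ofReal_mul, Complex.im_ofReal_mul, h2, hT]
        ring
      have hT0 : 0 < T := by
        rw [hT]
        positivity
      have hkT : n * T ≤ T - c * m + ‖X‖ / ‖lam‖ := by
        have h1 : (k : ℝ) * T = δ.im - (X / lam).im := by
          rw [← him]
          have h2 := congrArg Complex.im hδe
          rw [Complex.add_im] at h2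
          linarith
        have h2 : n * T = |(k : ℝ) * T| := by rw [abs_mul, abs_of_pos hT0]
        have h3 : |(X / lam).im| ≤ ‖X‖ / ‖lam‖ := by
          have h4 := Complex.abs_im_le_norm (X / lam)
          rwa [norm_div] at h4
        rw [h2, h1]
        have h5 := abs_sub δ.im (X / lam).im
        linarith
      have hXlow : ‖lam‖ * (c * m + (n - 1) * T) ≤ ‖X‖ := by
        have h1 : c * m + (n - 1) * T ≤ ‖X‖ / ‖lam‖ := by nlinarith
        have h2 := (le_div_iff₀ hln).1 h1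
        linarith
      have hm0 : 0 < m := by linarith
      have hn1 : 0 ≤ n - 1 := by linarith
      have hXlow2 : ‖lam‖ * m * (c + (n - 1)) ≤ ‖X‖ := by
        have h1 : (n - 1) * m ≤ (n - 1) * T := mul_le_mul_of_nonneg_left hmT hn1
        have h2 : ‖lam‖ * (c * m + (n - 1) * m) ≤ ‖lam‖ * (c * m + (n - 1) * T) :=
          mul_le_mul_of_nonneg_left (by linarith) hln.le
        nlinarith
      have hP1 : m * ‖lam‖ * n ≤ 2 * Real.pi + ‖X‖ := by
        have h1 : ‖lam‖ * ((n - 1) * m) ≤ ‖lam‖ * (c * m + (n - 1) * T) := by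
          apply mul_le_mul_of_nonneg_left _ hln.le
          have h2 : (n - 1) * m ≤ (n - 1) * T := mul_le_mul_of_nonneg_left hmT hn1
          have h3 : 0 ≤ c * m := by positivity
          linarith
        nlinarith
      have hP2 : m * ‖lam‖ * n * (1 / ‖X‖) ≤ 1 / c + 1 := by
        rw [mul_one_div, div_le_iff₀ hXn]
        have h1 : n ≤ (1 / c + 1) * (c + (n - 1)) := by
          have h2 : (1 / c + 1) * (c + (n - 1)) = n + c + (n - 1) / c := by
            field_simp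
            ring
          rw [h2]
          have h3 : 0 ≤ (n - 1) / c := by positivity
          linarith
        have h4 : m * ‖lam‖ * n ≤ m * ‖lam‖ * ((1 / c + 1) * (c + (n - 1))) :=
          mul_le_mul_of_nonneg_left h1 hml0
        have h5 : (0 : ℝ) ≤ 1 / c + 1 := by positivity
        have h6 := mul_le_mul_of_nonneg_left hXlow2 h5
        nlinarith
      have h7 : m * ‖lam‖ * (n * (1 + 1 / ‖X‖)) =
          m * ‖lam‖ * n + m * ‖lam‖ * n * (1 / ‖X‖) := by ring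
      rw [h7]
      linarith
  -- the number
  have hN : ‖-2 + w * (lam * δ)‖ ≤ 2 + ‖w‖ * ‖X‖ + 2 * Real.pi * (|(k : ℝ)| * ‖w‖) := by
    rw [hk]
    have h1 : -2 + w * (X + (k : ℂ) * (2 * (Real.pi : ℂ) * Complex.I)) =
        (-2 + w * X) + w * ((k : ℂ) * (2 * (Real.pi : ℂ) * Complex.I)) := by ring
    rw [h1]
    have h2 := norm_add_le (-2 + w * X) (w * ((k : ℂ) * (2 * (Real.pi : ℂ) * Complex.I)))
    have h3 := norm_add_le (-2 : ℂ) (w * X)
    have h4 : ‖(-2 : ℂ)‖ = 2 := by simp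
    have h5 : ‖w * ((k : ℂ) * (2 * (Real.pi : ℂ) * Complex.I))‖ =
        2 * Real.pi * (|(k : ℝ)| * ‖w‖) := by
      rw [norm_mul, norm_mul, norm_mul, norm_mul, Complex.norm_I, Complex.norm_real,
        Real.norm_eq_abs, abs_of_pos hpi]
      have h6 : ‖(k : ℂ)‖ = |(k : ℝ)| := by
        rw [← Complex.ofReal_intCast, Complex.norm_real, Real.norm_eq_abs]
      rw [h6]
      simp
      ring
    rw [norm_mul] at h3
    linarith
  have hfin1 : m * ‖lam‖ * (2 + ‖w‖ * ‖X‖) ≤ 2 * Real.pi * (2 + 4 * (‖X‖ + 1)) := by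
    have h1 : 2 + ‖w‖ * ‖X‖ ≤ 2 + 4 * (‖X‖ + 1) := by linarith
    have h2 := mul_le_mul_of_nonneg_left h1 hml0
    have h3 : 0 ≤ 2 + 4 * (‖X‖ + 1) := by positivity
    have h4 := mul_le_mul_of_nonneg_right hml h3
    linarith
  have hfin2 : m * ‖lam‖ * (2 * Real.pi * (|(k : ℝ)| * ‖w‖)) ≤
      8 * Real.pi * (2 * Real.pi + ‖X‖ + 1 / c + 1) := by
    have h1 : |(k : ℝ)| * ‖w‖ ≤ |(k : ℝ)| * (4 * (1 + 1 / ‖X‖)) :=
      mul_le_mul_of_nonneg_left hwb2 (abs_nonneg _)
    have h2 : m * ‖lam‖ * (2 * Real.pi * (|(k : ℝ)| * ‖w‖)) ≤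
        m * ‖lam‖ * (2 * Real.pi * (|(k : ℝ)| * (4 * (1 + 1 / ‖X‖)))) :=
      mul_le_mul_of_nonneg_left (mul_le_mul_of_nonneg_left h1 (by positivity)) hml0
    have h3 : m * ‖lam‖ * (2 * Real.pi * (|(k : ℝ)| * (4 * (1 + 1 / ‖X‖)))) =
        8 * Real.pi * (m * ‖lam‖ * (|(k : ℝ)| * (1 + 1 / ‖X‖))) := by ring
    have h4 := mul_le_mul_of_nonneg_left hkpart (show 0 ≤ 8 * Real.pi by positivity)
    linarith
  have hfin := mul_le_mul_of_nonneg_left hN hml0
  have hsplit : m * ‖lam‖ * (2 + ‖w‖ * ‖X‖ + 2 * Real.pi * (|(k : ℝ)| * ‖w‖)) =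
      m * ‖lam‖ * (2 + ‖w‖ * ‖X‖) + m * ‖lam‖ * (2 * Real.pi * (|(k : ℝ)| * ‖w‖)) := by ring
  rw [hsplit] at hfin
  have hpiX : Real.pi * ‖X‖ ≤ Real.pi * (L + Real.pi) := mul_le_mul_of_nonneg_left hXL hpi.le
  have hc1 : 0 < 1 / c := by positivity
  have hpc : 0 ≤ Real.pi * (1 / c) := by positivity
  have hpcL : 0 ≤ Real.pi * (1 / c) * L := by positivity
  have hpL : 0 ≤ Real.pi * L := by positivity
  have hp2L : 0 ≤ Real.pi ^ 2 * L := by positivity
  have hgoal : (28 * Real.pi + 48 * Real.pi ^ 2 + 12 * Real.pi / c + 24 * Real.pi) * (1 + L) =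
      52 * Real.pi + 48 * Real.pi ^ 2 + 12 * (Real.pi * (1 / c)) + 52 * (Real.pi * L) +
        48 * (Real.pi ^ 2 * L) + 12 * (Real.pi * (1 / c) * L) := by
    field_simp
    ring
  rw [hgoal]
  have e1 : 2 * Real.pi * (2 + 4 * (‖X‖ + 1)) = 12 * Real.pi + 8 * (Real.pi * ‖X‖) := by ring
  have e2 : 8 * Real.pi * (2 * Real.pi + ‖X‖ + 1 / c + 1) =
      16 * Real.pi ^ 2 + 8 * (Real.pi * ‖X‖) + 8 * (Real.pi * (1 / c)) + 8 * Real.pi := by ring
  have e3 : Real.pi * (L + Real.pi) = Real.pi * L + Real.pi ^ 2 := by ring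
  have hp2 : 0 < Real.pi ^ 2 := by positivity
  rw [e1] at hfin1
  rw [e2] at hfin2
  rw [e3] at hpiX
  nlinarith

end Pool.Agent.Helper19.QT
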